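import Pool.Agent.N202.M4.Stm

set_option autoImplicit false

namespace Pool.Agent.N767.M4

open Pool.Agent.N202.M4

variable {G : Type} [Group G]

open Classical in
/-- The indicator function of the coset `z N`. -/
noncomputable def ind (N : Subgroup G) (z σ : G) : ℤ := if z⁻¹ * σ ∈ N then 1 else 0

lemma ind_mul (N : Subgroup G) (z σ n : G) (hn : n ∈ N) : ind N z (σ * n) = ind N z σ := by
  unfold ind
  rw [← mul_assoc, Subgroup.mul_mem_cancel_right N hn]

lemma ind_left (N : Subgroup G) (a z σ : G) : ind N (a * z) (a * σ) = ind N z σ := by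
  unfold ind
  have : (a * z)⁻¹ * (a * σ) = z⁻¹ * σ := by group
  rw [this]

lemma ind_one (N : Subgroup G) (z σ : G) (h : z⁻¹ * σ ∈ N) : ind N z σ = 1 := by
  unfold ind; simp [h]

lemma ind_zero (N : Subgroup G) (z σ : G) (h : z⁻¹ * σ ∉ N) : ind N z σ = 0 := by
  unfold ind; simp [h]

lemma sumD (D : Subgroup G) [Fintype D] (h : D) (u : G → ℤ) (σ : G) :
    ∑ d : D, u ((h : G)⁻¹ * (d * σ)) = ∑ d : D, u (d * σ) := by
  refine Fintype.sum_equiv (Equiv.mulLeft h⁻¹) _ _ ?_
  intro d
  simp [mul_assoc]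

lemma sum_ind (N D : Subgroup G) [Fintype D] (h : D) (z σ : G) :
    ∑ d : D, ind N ((h : G) * z) (d * σ) = ∑ d : D, ind N z (d * σ) := by
  rw [← sumD D h (ind N z) σ]
  refine Finset.sum_congr rfl fun d _ => ?_
  rw [← ind_left N (h : G) z ((h : G)⁻¹ * (d * σ))]
  simp

lemma sum_ind_c (N D : Subgroup G) [Fintype D] (c : G) (hc : ∀ σ, c * σ = σ * c) (hcc : c * c = 1)
    (z σ : G) :
    ∑ d : D, ind N (c * z) (d * σ) = ∑ d : D, ind N z (d * (c * σ)) := by
  refine Finset.sum_congr rfl fun d _ => ?_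
  rw [← ind_left N c (c * z) (d * σ), ← mul_assoc, hcc, one_mul]
  congr 1
  rw [← mul_assoc, hc d, mul_assoc]

/-- The data `f`. -/
structure Good (N D : Subgroup G) [Fintype D] (c : G) (g : G → ℤ) : Prop where
  inv : ∀ σ, ∀ n ∈ N, g (σ * n) = g σ
  odd : ∀ σ, g (c * σ) = -g σ
  sum : ∀ σ, ∑ d : D, g (d * σ) = 0

lemma Good.sub {N D : Subgroup G} [Fintype D] {c : G} {g f : G → ℤ} (hg : Good N D c g)
    (hf : Good N D c f) : Good N D c (fun σ => g σ - f σ) where
  inv σ n hn := by simp only [hg.inv σ n hn, hf.inv σ n hn]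
  odd σ := by simp only [hg.odd, hf.odd]; ring
  sum σ := by rw [Finset.sum_sub_distrib, hg.sum, hf.sum, sub_zero]

/-- A half system of the cosets. -/
lemma half [Finite G] (N : Subgroup G) (c : G) (hc : ∀ σ, c * σ = σ * c) (hcc : c * c = 1)
    (hcN : c ∉ N) : ∃ K : Set G, (∀ σ, σ ∈ K ↔ c * σ ∉ K) ∧ ∀ σ, ∀ n ∈ N, σ * n ∈ K ↔ σ ∈ K := by
  obtain ⟨k, ⟨e⟩⟩ := Finite.exists_equiv_fin (G ⧸ N)
  refine ⟨{σ | e (QuotientGroup.mk σ) < e (QuotientGroup.mk (c * σ))}, ?_, ?_⟩
  · intro σ
    simp only [Set.mem_ofPred_eq]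
    rw [← mul_assoc, hcc, one_mul, not_lt]
    have hne : (QuotientGroup.mk σ : G ⧸ N) ≠ QuotientGroup.mk (c * σ) := by
      intro h
      rw [QuotientGroup.eq, hc, ← mul_assoc, inv_mul_cancel, one_mul] at h
      exact hcN h
    have hne' : e (QuotientGroup.mk σ) ≠ e (QuotientGroup.mk (c * σ)) := fun h => hne (e.injective h)
    constructor
    · intro h; exact h.le
    · intro h; exact lt_of_le_of_ne h hne'
  · intro σ n hn
    simp only [Set.mem_ofPred_eq]
    have h1 : (QuotientGroup.mk (σ * n) : G ⧸ N) = QuotientGroup.mk σ := by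
      rw [QuotientGroup.eq]; simpa [mul_assoc] using N.inv_mem hn
    have h2 : (QuotientGroup.mk (c * (σ * n)) : G ⧸ N) = QuotientGroup.mk (c * σ) := by
      rw [QuotientGroup.eq]; simpa [mul_assoc] using N.inv_mem hn
    rw [h1, h2]

/-- The two half systems of a function with values `-1`, `0`, `1`. -/
lemma two [Finite G] (N D : Subgroup G) [Fintype D] (c : G) (hc : ∀ σ, c * σ = σ * c)
    (hcc : c * c = 1) (hcN : c ∉ N) (f : G → ℤ) (hf : Good N D c f)
    (hv : ∀ σ, f σ = 1 ∨ f σ = 0 ∨ f σ = -1) :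
    ∃ T : Bool → Set G, (∀ b σ, σ ∈ T b ↔ c * σ ∉ T b) ∧
      (∀ b σ, ∀ n ∈ N, σ * n ∈ T b ↔ σ ∈ T b) ∧
      (∀ σ, pmT (T true) σ + pmT (T false) σ = 2 * f σ) := by
  obtain ⟨K, hK1, hK2⟩ := half N c hc hcc hcN
  refine ⟨fun b => {σ | f σ = 1 ∨ (f σ = 0 ∧ (σ ∈ K ↔ b = true))}, ?_, ?_, ?_⟩
  · intro b σ
    simp only [Set.mem_ofPred_eq, hf.odd]
    have := hK1 σ
    rcases hv σ with h | h | h <;> rw [h]
    · simp
    · simp only [zero_ne_one, neg_zero, true_and, false_or]
      cases b <;> simp <;> tauto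
    · simp
  · intro b σ n hn
    simp only [Set.mem_ofPred_eq, hf.inv σ n hn, hK2 σ n hn]
  · intro σ
    unfold pmT
    simp only [Set.mem_ofPred_eq]
    rcases hv σ with h | h | h
    · simp [h]
    · by_cases hk : σ ∈ K
      · simp [h, hk]
      · simp [h, hk]
    · simp [h]

/-- The step of the induction. -/
lemma step [Fintype G] (N D : Subgroup G) [Fintype D] (c : G) (hc : ∀ σ, c * σ = σ * c)
    (hcc : c * c = 1) (g : G → ℤ) (hg : Good N D c g) (hne : ∃ σ, g σ ≠ 0) :
    ∃ f : G → ℤ, Good N D c f ∧ (∀ σ, f σ = 1 ∨ f σ = 0 ∨ f σ = -1) ∧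
      ∑ σ, (g σ - f σ).natAbs < ∑ σ, (g σ).natAbs := by
  -- a positive value
  obtain ⟨x, hx⟩ : ∃ x, 0 < g x := by
    obtain ⟨σ, hσ⟩ := hne
    rcases lt_or_gt_of_ne hσ with h | h
    · exact ⟨c * σ, by rw [hg.odd]; omega⟩
    · exact ⟨σ, h⟩
  obtain ⟨h, hy⟩ : ∃ h : D, g (h * x) < 0 := by
    by_contra hcon
    push Not at hcon
    have h0 := hg.sum x
    rw [Finset.sum_eq_zero_iff_of_nonneg (fun d _ => hcon d)] at h0
    have := h0 1 (Finset.mem_univ _)
    simp at this
    omega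
  set y : G := h * x with hy_def
  have hval : ∀ z σ : G, z⁻¹ * σ ∈ N → g σ = g z := by
    intro z σ hz
    have := hg.inv z _ hz
    rwa [mul_inv_cancel_left] at this
  have hcval : ∀ z σ : G, (c * z)⁻¹ * σ ∈ N → g σ = - g z := by
    intro z σ hz
    rw [hval _ _ hz, hg.odd]
  have cinv : c⁻¹ = c := inv_eq_of_mul_eq_one_left hcc
  by_cases hcase : (c * x)⁻¹ * y ∈ N
  · -- case A
    have hyx : ∀ σ, (y⁻¹ * σ ∈ N ↔ (c * x)⁻¹ * σ ∈ N) := by
      intro σ
      have : (c * x)⁻¹ * σ = ((c * x)⁻¹ * y) * (y⁻¹ * σ) := by group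
      rw [this, Subgroup.mul_mem_cancel_left N hcase]
    have hind : ∀ σ, ind N (c * x) σ = ind N y σ := by
      intro σ
      by_cases h1 : y⁻¹ * σ ∈ N
      · rw [ind_one _ _ _ h1, ind_one _ _ _ ((hyx σ).1 h1)]
      · rw [ind_zero _ _ _ h1, ind_zero _ _ _ (fun h2 => h1 ((hyx σ).2 h2))]
    refine ⟨fun σ => ind N x σ - ind N (c * x) σ, ⟨?_, ?_, ?_⟩, ?_, ?_⟩
    · intro σ n hn
      simp only [ind_mul N _ _ _ hn]
    · intro σ
      have h1 : ind N x (c * σ) = ind N (c * x) σ := by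
        rw [← ind_left N c x (c * σ), ← mul_assoc c c σ, hcc, one_mul]
      simp only [ind_left, h1]
      ring
    · intro σ
      rw [Finset.sum_sub_distrib]
      have : ∑ d : D, ind N (c * x) (d * σ) = ∑ d : D, ind N y (d * σ) :=
        Finset.sum_congr rfl fun d _ => hind _
      rw [this, sum_ind, sub_self]
    · intro σ
      by_cases h1 : x⁻¹ * σ ∈ N <;> by_cases h2 : (c * x)⁻¹ * σ ∈ N
      · simp [ind_one _ _ _ h1, ind_one _ _ _ h2]
      · simp [ind_one _ _ _ h1, ind_zero _ _ _ h2]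
      · simp [ind_zero _ _ _ h1, ind_one _ _ _ h2]
      · simp [ind_zero _ _ _ h1, ind_zero _ _ _ h2]
    · refine Finset.sum_lt_sum (fun σ _ => ?_) ⟨x, Finset.mem_univ _, ?_⟩
      · by_cases h1 : x⁻¹ * σ ∈ N <;> by_cases h2 : (c * x)⁻¹ * σ ∈ N
        · simp [ind_one _ _ _ h1, ind_one _ _ _ h2]
        · have := hval _ _ h1
          simp only [ind_one _ _ _ h1, ind_zero _ _ _ h2]
          omega
        · have := hcval _ _ h2
          simp only [ind_zero _ _ _ h1, ind_one _ _ _ h2]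
          omega
        · simp [ind_zero _ _ _ h1, ind_zero _ _ _ h2]
      · have h1 : x⁻¹ * x ∈ N := by simp [N.one_mem]
        have h2 : (c * x)⁻¹ * x ∉ N := by
          intro h2
          have := hcval _ _ h2
          omega
        simp only [ind_one _ _ _ h1, ind_zero _ _ _ h2]
        omega
  · -- case B
    have E23 : ∀ σ, (c * x)⁻¹ * σ ∈ N → y⁻¹ * σ ∈ N → False := by
      intro σ h2 h3
      apply hcase
      have : (c * x)⁻¹ * y = ((c * x)⁻¹ * σ) * (y⁻¹ * σ)⁻¹ := by group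
      rw [this]
      exact N.mul_mem h2 (N.inv_mem h3)
    have E14 : ∀ σ, x⁻¹ * σ ∈ N → (c * y)⁻¹ * σ ∈ N → False := by
      intro σ h1 h4
      refine E23 (c * σ) ?_ ?_
      · have : (c * x)⁻¹ * (c * σ) = x⁻¹ * σ := by group
        rwa [this]
      · have : y⁻¹ * (c * σ) = (c * y)⁻¹ * σ := by
          rw [mul_inv_rev c y, cinv, mul_assoc]
        rwa [this]
    refine ⟨fun σ => ind N x σ - ind N y σ - ind N (c * x) σ + ind N (c * y) σ, ⟨?_, ?_, ?_⟩,
      ?_, ?_⟩
    · intro σ n hn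
      simp only [ind_mul N _ _ _ hn]
    · intro σ
      have h1 : ∀ z, ind N z (c * σ) = ind N (c * z) σ := by
        intro z
        rw [← ind_left N c z (c * σ), ← mul_assoc c c σ, hcc, one_mul]
      simp only [ind_left, h1 x, h1 y]
      ring
    · intro σ
      rw [Finset.sum_add_distrib, Finset.sum_sub_distrib, Finset.sum_sub_distrib,
        sum_ind_c N D c hc hcc, sum_ind_c N D c hc hcc, sum_ind, sum_ind]
      ring
    · intro σ
      by_cases h1 : x⁻¹ * σ ∈ N <;> by_cases h2 : (c * x)⁻¹ * σ ∈ N <;>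
      by_cases h3 : y⁻¹ * σ ∈ N <;> by_cases h4 : (c * y)⁻¹ * σ ∈ N
      all_goals
        simp only [ind, h1, h2, h3, h4, if_true, if_false]
        first
        | omega
        | (exfalso; first | exact E23 σ h2 h3 | exact E14 σ h1 h4 |
            (have := hval _ _ h1; have := hcval _ _ h2; omega) |
            (have := hval _ _ h1; have := hval _ _ h3; omega) |
            (have := hcval _ _ h2; have := hcval _ _ h4; omega) |
            (have := hval _ _ h3; have := hcval _ _ h4; omega))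
    · refine Finset.sum_lt_sum (fun σ _ => ?_) ⟨x, Finset.mem_univ _, ?_⟩
      · by_cases h1 : x⁻¹ * σ ∈ N <;> by_cases h2 : (c * x)⁻¹ * σ ∈ N <;>
        by_cases h3 : y⁻¹ * σ ∈ N <;> by_cases h4 : (c * y)⁻¹ * σ ∈ N
        all_goals
          simp only [ind, h1, h2, h3, h4, if_true, if_false]
          first
          | omega
          | (have := hval _ _ h1; omega)
          | (have := hcval _ _ h2; omega)
          | (have := hval _ _ h3; omega)
          | (have := hcval _ _ h4; omega)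
          | (exfalso; first | exact E23 σ h2 h3 | exact E14 σ h1 h4 |
              (have := hval _ _ h1; have := hcval _ _ h2; omega) |
              (have := hval _ _ h1; have := hval _ _ h3; omega) |
              (have := hcval _ _ h2; have := hcval _ _ h4; omega) |
              (have := hval _ _ h3; have := hcval _ _ h4; omega))
      · have h1 : x⁻¹ * x ∈ N := by simp [N.one_mem]
        have h2 : (c * x)⁻¹ * x ∉ N := by
          intro h2
          have := hcval _ _ h2
          omega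
        have h3 : y⁻¹ * x ∉ N := by
          intro h3
          have := hval _ _ h3
          omega
        have h4 : (c * y)⁻¹ * x ∉ N := fun h4 => E14 x h1 h4
        simp only [ind_one _ _ _ h1, ind_zero _ _ _ h2, ind_zero _ _ _ h3, ind_zero _ _ _ h4]
        omega

theorem dec_ : S_DEC := by
  intro G _ _ c hc hcc N D hcN g hinv hodd hsum
  classical
  have : Fintype D := Fintype.ofFinite D
  simp only [finsum_eq_sum_of_fintype] at hsum ⊢
  have hg : Good N D c g := ⟨hinv, hodd, hsum⟩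
  clear hinv hodd hsum
  induction' hk : ∑ σ, (g σ).natAbs using Nat.strong_induction_on with k ih generalizing g
  by_cases h0 : ∃ σ, g σ ≠ 0
  · obtain ⟨f, hf, hv, hlt⟩ := step N D c hc hcc g hg h0
    obtain ⟨m, T, hT1, hT2, hT3, hT4⟩ := ih _ (hk ▸ hlt) (fun σ => g σ - f σ) (hg.sub hf) rfl
    obtain ⟨S, hS1, hS2, hS3⟩ := two N D c hc hcc hcN f hf hv
    refine ⟨m + 1, fun p => Fin.cases (S p.2) (fun i => T (i, p.2)) p.1, ?_, ?_, ?_, ?_⟩
    · rintro ⟨i, b⟩ σ
      refine Fin.cases ?_ (fun i => ?_) i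
      · exact hS1 b σ
      · exact hT1 (i, b) σ
    · rintro ⟨i, b⟩ σ n hn
      refine Fin.cases ?_ (fun i => ?_) i
      · exact hS2 b σ n hn
      · exact hT2 (i, b) σ n hn
    · intro σ
      have h1 := hT3 σ
      have h2 := hS3 σ
      rw [Fintype.sum_prod_type] at h1 ⊢
      simp only [Fintype.sum_bool, Fin.sum_univ_succ, Fin.cases_zero, Fin.cases_succ] at h1 ⊢
      linarith
    · intro i σ
      refine Fin.cases ?_ (fun i => ?_) i
      · simp only [Fin.cases_zero, hS3]
        rw [← Finset.mul_sum, hf.sum, mul_zero]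
      · simp only [Fin.cases_succ]
        exact hT4 i σ
  · push Not at h0
    refine ⟨0, fun p => p.1.elim0, ?_, ?_, ?_, ?_⟩
    · intro i; exact i.1.elim0
    · intro i; exact i.1.elim0
    · intro σ
      simp [h0 σ]
    · intro i; exact i.elim0

end Pool.Agent.N767.M4
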